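import Pool.Agent.Helper861.GccMain

/-! # The graph complement conjecture `mr(G) + mr(Ḡ) ≤ |G| + 2` for several classes of graphs -/

set_option autoImplicit false

namespace Pool.Agent.Results.MP_875478_co.GraphClasses

open Pool.Agent.Helper861.Gcc Pool.Agent.Helper861.Delta

theorem rank_add_le' {m n : ℕ} (A B : Matrix (Fin m) (Fin n) ℝ) :
    (A + B).rank ≤ A.rank + B.rank := by
  unfold Matrix.rank
  have h : LinearMap.range (A + B).mulVecLin ≤
      LinearMap.range A.mulVecLin ⊔ LinearMap.range B.mulVecLin := by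
    rintro _ ⟨x, rfl⟩
    rw [Matrix.mulVecLin_add]
    exact Submodule.add_mem_sup ⟨x, rfl⟩ ⟨x, rfl⟩
  exact (Submodule.finrank_mono h).trans (Submodule.finrank_add_le_finrank_add_finrank _ _)

/-- A matrix supported on few rows and few columns has small rank. -/
theorem rank_cross {m n : ℕ} (N : Matrix (Fin m) (Fin n) ℝ) (R : Finset (Fin m))
    (C : Finset (Fin n)) (h : ∀ i ∉ R, ∀ j ∉ C, N i j = 0) : N.rank ≤ R.card + C.card := by
  classical
  have hN : N = (Matrix.of fun i (r : R) => if i = (r : Fin m) then (1 : ℝ) else 0) *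
      (Matrix.of fun (r : R) j => N r j) +
      (Matrix.of fun i (c : C) => if i ∈ R then (0 : ℝ) else N i c) *
      (Matrix.of fun (c : C) j => if (c : Fin n) = j then (1 : ℝ) else 0) := by
    ext i j
    simp only [Matrix.add_apply, Matrix.mul_apply, Matrix.of_apply]
    have h1 : ∑ x : R, (if i = (x : Fin m) then (1 : ℝ) else 0) * N x j =
        if i ∈ R then N i j else 0 := by
      split_ifs with hi
      · rw [Finset.sum_eq_single ⟨i, hi⟩]
        · simp
        · intro x _ hx
          rw [if_neg, zero_mul]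
          intro he
          exact hx (Subtype.ext he.symm)
        · intro h
          exact absurd (Finset.mem_univ _) h
      · refine Finset.sum_eq_zero fun x _ => ?_
        rw [if_neg, zero_mul]
        intro he
        exact hi (he ▸ x.2)
    have h2 : ∑ x : C, (if i ∈ R then (0 : ℝ) else N i x) * (if (x : Fin n) = j then (1 : ℝ) else 0) =
        if i ∈ R then 0 else N i j := by
      by_cases hj : j ∈ C
      · rw [Finset.sum_eq_single ⟨j, hj⟩]
        · simp
        · intro x _ hx
          have : ¬ ((x : Fin n) = j) := fun he => hx (Subtype.ext he)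
          rw [if_neg this, mul_zero]
        · intro h
          exact absurd (Finset.mem_univ _) h
      · rw [Finset.sum_eq_zero]
        · split_ifs with hi
          · rfl
          · exact (h i hi j hj).symm
        · intro x _
          have : ¬ ((x : Fin n) = j) := fun he => hj (he ▸ x.2)
          rw [if_neg this, mul_zero]
    rw [h1, h2]
    split_ifs <;> simp
  rw [hN]
  refine (rank_add_le' _ _).trans (Nat.add_le_add ?_ ?_)
  · refine (Matrix.rank_mul_le_left _ _).trans ?_
    have := Matrix.rank_le_card_width (Matrix.of fun (i : Fin m) (r : R) =>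
      if i = (r : Fin m) then (1 : ℝ) else 0)
    simpa using this
  · refine (Matrix.rank_mul_le_left _ _).trans ?_
    have := Matrix.rank_le_card_width (Matrix.of fun (i : Fin m) (c : C) =>
      if i ∈ R then (0 : ℝ) else N i c)
    simpa using this

theorem mr_le_n {n : ℕ} (G : SimpleGraph (Fin n)) : mr G ≤ n := by
  obtain ⟨A, hA⟩ := SG_nonempty G
  exact (mr_le hA).trans (by simpa using Matrix.rank_le_card_width A)

open Classical in
/-- The minimum rank is at most twice the size of a vertex cover. -/
theorem mr_cover {n : ℕ} (G : SimpleGraph (Fin n)) (R : Finset (Fin n))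
    (hR : ∀ x, x ∉ R → ∀ y, y ∉ R → ¬ G.Adj x y) : mr G ≤ 2 * R.card := by
  let A : Matrix (Fin n) (Fin n) ℝ := Matrix.of fun i j => if G.Adj i j then 1 else 0
  have hA : A ∈ SG G := by
    refine ⟨?_, ?_⟩
    · ext i j
      simp only [A, Matrix.transpose_apply, Matrix.of_apply, G.adj_comm]
    · intro i j _
      simp only [A, Matrix.of_apply]
      by_cases h : G.Adj i j
      · simp [h]
      · simp [h]
  have h1 := rank_cross A R R (by
    intro i hi j hj
    simp only [A, Matrix.of_apply]
    rw [if_neg (hR i hi j hj)])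
  have h2 := mr_le hA
  omega

open Classical in
theorem core_sum {n : ℕ} (G : SimpleGraph (Fin n)) (A B : Finset (Fin n)) (d e : ℕ)
    (hA : A.Nonempty) (hB : B.Nonempty)
    (h1 : ∀ x ∈ A, d ≤ (A.filter fun y => G.Adj x y).card)
    (h2 : ∀ x ∈ B, e ≤ (B.filter fun y => Gᶜ.Adj x y).card) :
    mr G + mr Gᶜ + d + e ≤ 2 * n := by
  have h3 := mr_core G A d hA (by intro x hx; convert h1 x hx)
  have h4 := mr_core Gᶜ B e hB (by intro x hx; convert h2 x hx)
  rw [Fintype.card_fin] at h3 h4
  omega

open Classical in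
theorem compl_deg {n : ℕ} (G : SimpleGraph (Fin n)) (B : Finset (Fin n)) (D : ℕ)
    (h1 : ∀ x ∈ B, (B.filter fun y => G.Adj x y).card ≤ D) :
    ∀ x ∈ B, B.card - 1 - D ≤ (B.filter fun y => Gᶜ.Adj x y).card := by
  intro x hx
  have h4 : (B.filter fun y => Gᶜ.Adj x y) = (B.erase x) \ (B.filter fun y => G.Adj x y) := by
    ext y
    simp only [Finset.mem_filter, SimpleGraph.compl_adj, Finset.mem_sdiff, Finset.mem_erase]
    constructor
    · rintro ⟨hy, hne, hadj⟩
      exact ⟨⟨fun h => hne h.symm, hy⟩, fun h => hadj h.2⟩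
    · rintro ⟨⟨hne, hy⟩, h⟩
      exact ⟨hy, fun h' => hne h'.symm, fun h' => h ⟨hy, h'⟩⟩
  rw [h4]
  have h5 := Finset.le_card_sdiff (B.filter fun y => G.Adj x y) (B.erase x)
  rw [Finset.card_erase_of_mem hx] at h5
  have h6 := h1 x hx
  omega

open Classical in
theorem criterion {n : ℕ} (G : SimpleGraph (Fin n)) (A B : Finset (Fin n)) (D : ℕ)
    (hA : A.Nonempty) (hB : B.Nonempty)
    (h1 : ∀ x ∈ B, (B.filter fun y => G.Adj x y).card ≤ D)
    (h2 : ∀ x ∈ A, D + (n - B.card) ≤ (A.filter fun y => G.Adj x y).card + 1) :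
    mr G + mr Gᶜ ≤ n + 2 := by
  have h3 := core_sum G A B (D + (n - B.card) - 1) (B.card - 1 - D) hA hB
    (by intro x hx; have := h2 x hx; omega) (compl_deg G B D h1)
  have h7 : B.card ≤ n := by
    have := Finset.card_le_univ B
    rwa [Fintype.card_fin] at this
  have h8 : 0 < B.card := Finset.card_pos.2 hB
  omega

open Classical in
theorem degenerate {n : ℕ} (G : SimpleGraph (Fin n)) (a : ℕ)
    (ha : ∀ S : Finset (Fin n), S.Nonempty → ∃ x ∈ S, (S.filter fun y => G.Adj x y).card ≤ a) :
    mr G + mr Gᶜ ≤ n + 1 + a := by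
  rcases Nat.eq_zero_or_pos n with rfl | hn
  · have h1 := mr_le_n G
    have h2 := mr_le_n Gᶜ
    omega
  have hP : ∃ a : ℕ, ∀ S : Finset (Fin n), S.Nonempty →
      ∃ x ∈ S, (S.filter fun y => G.Adj x y).card ≤ a := ⟨a, ha⟩
  have h0 : Nat.find hP ≤ a := Nat.find_min' hP ha
  have hcore : ∃ S : Finset (Fin n), S.Nonempty ∧
      ∀ x ∈ S, Nat.find hP ≤ (S.filter fun y => G.Adj x y).card := by
    rcases Nat.eq_zero_or_pos (Nat.find hP) with h0 | h0
    · refine ⟨Finset.univ, ⟨⟨0, hn⟩, Finset.mem_univ _⟩, fun x _ => ?_⟩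
      rw [h0]
      exact Nat.zero_le _
    · have h1 := Nat.find_min hP (m := Nat.find hP - 1) (by omega)
      push Not at h1
      obtain ⟨S, hS, h2⟩ := h1
      refine ⟨S, hS, fun x hx => ?_⟩
      have := h2 x hx
      omega
  obtain ⟨S, hS, hd⟩ := hcore
  have h3 := mr_core G S (Nat.find hP) hS (by intro x hx; convert hd x hx)
  obtain ⟨A, h5, h6, h7⟩ := degen_compl (Fin n) G (Nat.find hP) (by
    have := Nat.find_spec hP
    convert this)
  have h8 := mr_le (G := Gᶜ) (A := A) ⟨h5, h6⟩
  rw [Fintype.card_fin] at h3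
  omega

open Classical in
theorem large_indep {n : ℕ} (G : SimpleGraph (Fin n)) (I : Finset (Fin n))
    (hI : ∀ x ∈ I, ∀ y ∈ I, ¬ G.Adj x y) (hc : 2 * n ≤ 3 * I.card + 1) :
    mr G + mr Gᶜ ≤ n + 2 := by
  rcases Nat.eq_zero_or_pos n with rfl | hn
  · have h1 := mr_le_n G
    have h2 := mr_le_n Gᶜ
    omega
  have hne : I.Nonempty := by
    rw [← Finset.card_pos]; omega
  have h1 := mr_cover G (Finset.univ \ I) (by
    intro x hx y hy
    have hx' : x ∈ I := by
      by_contra h
      exact hx (Finset.mem_sdiff.2 ⟨Finset.mem_univ x, h⟩)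
    have hy' : y ∈ I := by
      by_contra h
      exact hy (Finset.mem_sdiff.2 ⟨Finset.mem_univ y, h⟩)
    exact hI x hx' y hy')
  rw [Finset.card_sdiff_of_subset (Finset.subset_univ I), Finset.card_univ,
    Fintype.card_fin] at h1
  have h2 := mr_core Gᶜ I (I.card - 1 - 0) hne (by
    have h3 := compl_deg G I 0 (by
      intro x hx
      rw [Nat.le_zero, Finset.card_eq_zero, Finset.filter_eq_empty_iff]
      intro y hy
      exact hI x hx y hy)
    intro x hx
    have := h3 x hx
    convert this)
  rw [Fintype.card_fin] at h2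
  have h4 : I.card ≤ n := by
    have := Finset.card_le_univ I
    rwa [Fintype.card_fin] at this
  have h5 : 0 < I.card := Finset.card_pos.2 hne
  omega

open Classical in
/-- Let `G` be a graph on `n` vertices.
(1) If `G[A]` has minimum degree at least `d` and `Ḡ[B]` has minimum degree at least `e`, for
nonempty vertex sets `A, B`, then `mr(G) + mr(Ḡ) ≤ 2n - d - e`.
(2) `mr(G) + mr(Ḡ) ≤ n + 2` whenever there are nonempty vertex sets `A, B` such that
`δ(G[A]) ≥ Δ(G[B]) + |V \ B| - 1`.
(3) `mr(G) + mr(Ḡ) ≤ n + 2` for all split graphs (`V` is the union of a clique `K` and an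
independent set).
(4) `mr(G) + mr(Ḡ) ≤ n + 2` for all graphs which have an independent set or a clique with at least
`(2n - 1)/3` vertices.
(5) `mr(G) + mr(Ḡ) ≤ n + 1 + a` for `a`-degenerate graphs (each nonempty vertex set `S` contains
a vertex with at most `a` neighbours in `S`). -/
theorem result :
    (∀ (n : ℕ) (G : SimpleGraph (Fin n)) (A B : Finset (Fin n)) (d e : ℕ),
      A.Nonempty → B.Nonempty →
      (∀ x ∈ A, d ≤ (A.filter fun y => G.Adj x y).card) →
      (∀ x ∈ B, e ≤ (B.filter fun y => Gᶜ.Adj x y).card) →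
      mr G + mr Gᶜ + d + e ≤ 2 * n) ∧
    (∀ (n : ℕ) (G : SimpleGraph (Fin n)) (A B : Finset (Fin n)) (D : ℕ),
      A.Nonempty → B.Nonempty →
      (∀ x ∈ B, (B.filter fun y => G.Adj x y).card ≤ D) →
      (∀ x ∈ A, D + (n - B.card) ≤ (A.filter fun y => G.Adj x y).card + 1) →
      mr G + mr Gᶜ ≤ n + 2) ∧
    (∀ (n : ℕ) (G : SimpleGraph (Fin n)) (K : Finset (Fin n)),
      (∀ x ∈ K, ∀ y ∈ K, x ≠ y → G.Adj x y) → (∀ x, x ∉ K → ∀ y, y ∉ K → ¬ G.Adj x y) →
      mr G + mr Gᶜ ≤ n + 2) ∧
    (∀ (n : ℕ) (G : SimpleGraph (Fin n)) (I : Finset (Fin n)), 2 * n ≤ 3 * I.card + 1 →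
      ((∀ x ∈ I, ∀ y ∈ I, ¬ G.Adj x y) ∨ (∀ x ∈ I, ∀ y ∈ I, x ≠ y → G.Adj x y)) →
      mr G + mr Gᶜ ≤ n + 2) ∧
    (∀ (n : ℕ) (G : SimpleGraph (Fin n)) (a : ℕ),
      (∀ S : Finset (Fin n), S.Nonempty → ∃ x ∈ S, (S.filter fun y => G.Adj x y).card ≤ a) →
      mr G + mr Gᶜ ≤ n + 1 + a) := by
  refine ⟨fun n G A B d e hA hB h1 h2 => core_sum G A B d e hA hB h1 h2,
    fun n G A B D hA hB h1 h2 => criterion G A B D hA hB h1 h2, ?_, ?_,
    fun n G a ha => degenerate G a ha⟩
  · intro n G K hK hI
    rcases Nat.eq_zero_or_pos n with rfl | hn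
    · have h1 := mr_le_n G
      have h2 := mr_le_n Gᶜ
      omega
    have h0 : Fintype.card (Fin n) = n := Fintype.card_fin n
    by_cases hKne : K.Nonempty
    · by_cases hBne : (Finset.univ \ K).Nonempty
      · apply criterion G K (Finset.univ \ K) 0 hKne hBne
        · intro x hx
          rw [Finset.mem_sdiff] at hx
          rw [Nat.le_zero, Finset.card_eq_zero, Finset.filter_eq_empty_iff]
          intro y hy
          rw [Finset.mem_sdiff] at hy
          exact hI x hx.2 y hy.2
        · intro x hx
          have h1 : (K.filter fun y => G.Adj x y) = K.erase x := by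
            ext y
            rw [Finset.mem_filter, Finset.mem_erase]
            constructor
            · rintro ⟨hy, hadj⟩
              exact ⟨hadj.ne', hy⟩
            · rintro ⟨hne, hy⟩
              exact ⟨hy, hK x hx y hy hne.symm⟩
          rw [h1, Finset.card_erase_of_mem hx, Finset.card_sdiff_of_subset (Finset.subset_univ K),
            Finset.card_univ, h0]
          have h2 : K.card ≤ n := by
            have := Finset.card_le_univ K
            rwa [h0] at this
          have h3 : 0 < K.card := Finset.card_pos.2 hKne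
          omega
      · rw [Finset.not_nonempty_iff_eq_empty, Finset.sdiff_eq_empty_iff_subset] at hBne
        have hall : ∀ x : Fin n, x ∈ K := fun x => hBne (Finset.mem_univ x)
        apply criterion G Finset.univ {⟨0, hn⟩} 0 ⟨⟨0, hn⟩, Finset.mem_univ _⟩
          (Finset.singleton_nonempty _)
        · intro x hx
          rw [Finset.mem_singleton] at hx
          rw [Nat.le_zero, Finset.card_eq_zero, Finset.filter_eq_empty_iff]
          intro y hy
          rw [Finset.mem_singleton] at hy
          rw [hx, hy]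
          exact G.irrefl
        · intro x _
          have h1 : (Finset.univ.filter fun y => G.Adj x y) = Finset.univ.erase x := by
            ext y
            rw [Finset.mem_filter, Finset.mem_erase]
            constructor
            · rintro ⟨hy, hadj⟩
              exact ⟨hadj.ne', hy⟩
            · rintro ⟨hne, hy⟩
              exact ⟨hy, hK x (hall x) y (hall y) hne.symm⟩
          rw [h1, Finset.card_erase_of_mem (Finset.mem_univ x), Finset.card_univ, h0,
            Finset.card_singleton]
          omega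
    · rw [Finset.not_nonempty_iff_eq_empty] at hKne
      subst hKne
      apply criterion G Finset.univ Finset.univ 0 ⟨⟨0, hn⟩, Finset.mem_univ _⟩
        ⟨⟨0, hn⟩, Finset.mem_univ _⟩
      · intro x _
        rw [Nat.le_zero, Finset.card_eq_zero, Finset.filter_eq_empty_iff]
        intro y _
        exact hI x (Finset.notMem_empty x) y (Finset.notMem_empty y)
      · intro x _
        rw [Finset.card_univ, h0]
        omega
  · intro n G I hc h
    rcases h with h | h
    · exact large_indep G I h hc
    · have h1 := large_indep Gᶜ I (by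
        intro x hx y hy hadj
        rw [SimpleGraph.compl_adj] at hadj
        exact hadj.2 (h x hx y hy hadj.1)) hc
      rw [compl_compl] at h1
      omega

end Pool.Agent.Results.MP_875478_co.GraphClasses
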